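import Mathlib
import Pool.Agent.Q225.SP.ZeroSum
import Pool.Agent.Q225.SP.Local

/-!
# 3SUM: readings weighted by dependence

The input consists of `2 n` distinct integers of absolute value at most `(2 n) ^ 3`; the question is
whether three of them have the sum zero. The items of the input are the first `n` numbers and the
list of the other `n` numbers.

A real formula (`Fml`, `Pool.Agent.Y638.RF.Defs`) is built from real constants, arbitrary real
functions of one item, and arbitrary real functions of `w` words with `(2 n) ^ c` values (words of
`c log₂ (2 n)` bits), where each word is an arbitrary function of one item, by sums, products, sign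
tests `pos` (with the values `0`, `1`), and gates `sym` of any fan-in whose value is an arbitrary real
function of the number of positive inputs. In a branching program (`BP`) every inner node tests
whether a real formula accepts.

A circuit (`Circuit`, `Pool.Agent.Q225.SP.Defs`) consists of any number of gates. Each gate is a
branching program of size at most `n ^ a` which may read the items and the bits computed by all
earlier gates (in the formulas, the bits of the earlier gates are further items). A bit may be used
any number of times. The load of a circuit is the number of readings, where the reading of one of the
first `n` numbers counts one, and the reading of a bit counts the number of these numbers on which it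
depends (directly, or by other gates). So everything that is computed from the list of the last `n`
numbers alone (for instance sorting it, or all sums of two of its numbers; in any number of gates) is
free, and it may be read free of charge.

1. Random circuits with error probability at most `1 / 3` need
   `n ^ 2 ≤ 10000 (a + w c) E [load]`, for `n ≥ 1000 a` and `a ≥ 1`.
2. If each bit that may be used depends on at most `d` of the first `n` numbers, then the expected
   number of readings is at least `n ^ 2 / (10000 d (a + w c))`.

The starting results in this folder are about circuits over the full binary basis whose shared gates
depend on few numbers (`LocalSharing`), about nondeterministic programs over real formulas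
(`RealNetworks`), and about formulas with determinants (`DeterminantGates`), the latter two without
shared bits and with the bound `n ^ (3 / 2)`.

Proof. By the coding of helper697 each of the first `n` numbers can ask for about `n log₂ n / 7` bits
of the list, by `n ^ 2` different values. We count the functions of a number which arise at the gates
which depend on it, when the other numbers are fixed: for given functions at the earlier gates, a gate
is a branching program in one item (this number with the functions of the earlier dependent gates)
and in independent parameters (everything else, also the bits of the gates which do not depend on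
this number), which has `2 ^ O (r (a + w c) log n)` functions, if `r` readings depend on this number
(Warren's bound, `Pool.Agent.Y638.RF.Prog`). The sum of these numbers `r` over all gates and all the
first `n` numbers is the load.
-/

set_option autoImplicit false

namespace Pool.Agent.Results.MP_8f87b2_lc.DependenceWeightedReads

open Pool.Agent.TH697.Form (IsProb)
open Pool.Agent.TH697.Row (ApproximatesOn)
open Pool.Agent.TH697.Form.ThreeSum (Item Valid)
open Pool.Agent.TH457.Ary.ZeroSum (zeroSum)
open Pool.Agent.Q225.SP

theorem result :
    (∀ n a c w : ℕ, 1000 ≤ n → 1 ≤ a → 1000 * a ≤ n → 1 ≤ w →
      ∀ (Ω : Type) [Fintype Ω] (μ : Ω → ℝ), IsProb μ →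
        ∀ C : Ω → Circuit (Option (Fin n)) (Item n n) w ((2 * n) ^ c),
          (∀ ω, (C ω).SizeLE (n ^ a)) →
          ApproximatesOn μ (fun ω => (C ω).eval) (Valid n n) (zeroSum n) →
          (n : ℝ) ^ 2 ≤ 10000 * (a + w * c) * mean μ (fun ω => (C ω).load (somes n))) ∧
    (∀ n a c w d : ℕ, 1000 ≤ n → 1 ≤ a → 1000 * a ≤ n → 1 ≤ w → 1 ≤ d →
      ∀ (Ω : Type) [Fintype Ω] (μ : Ω → ℝ), IsProb μ →
        ∀ C : Ω → Circuit (Option (Fin n)) (Item n n) w ((2 * n) ^ c),
          (∀ ω, (C ω).SizeLE (n ^ a)) → (∀ ω, (C ω).IsLocal (somes n) d) →
          ApproximatesOn μ (fun ω => (C ω).eval) (Valid n n) (zeroSum n) →
          (n : ℝ) ^ 2 ≤ 10000 * (a + w * c) * (d * mean μ (fun ω => (C ω).reads))) := by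
  refine ⟨fun _ _ _ _ hn ha han hw _ _ μ hμ C hC hF => zeroSum_bound hn ha han hw μ hμ C hC hF,
    fun n a c w d hn ha han hw hd _ _ μ hμ C hC hL hF => ?_⟩
  exact local_bound μ hμ (somes n) d hd C hL (by positivity)
    (zeroSum_bound hn ha han hw μ hμ C hC hF)

end Pool.Agent.Results.MP_8f87b2_lc.DependenceWeightedReads
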