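import Mathlib
import Pool.Agent.Q128.LDT.Bound

/-!
# Integer 3SUM: randomized algorithms which test signs of linear forms in three numbers

The input is a list `x` of `n` distinct integers of absolute value at most `R`; the question is
whether three of them have the sum zero. We consider randomized algorithms which first learn, for
free, all digits of all numbers outside a window, namely the integers `x_l / H` and the residues
`x_l mod Q`, compute with them as they like, and then use the numbers only through tests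
`sign (a x_i + b x_j + c x_k + e)` with arbitrary positions `i, j, k`, coefficients of absolute
value at most `L` and constants smaller than `Q`; everything may depend on the earlier results.

Let `d ≥ 1` and `C = 3 * 144 ^ d * (d + 6)`. If `C ≤ n`, `(C L Q)^d n^2 ≤ H^d` and
`C L^(d+1) n H ≤ R`, then there is a single list `x` without solution on which all these algorithms
make at least `n ^ 2 / C` tests in expectation. It has no short certificates: for fewer than
`n ^ 2 / C` such tests there is a list with a solution with the same digits outside the window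
and the same results of the tests. So there is such a list for `R = n ^ 4` and all `L ≤ c √n`, and
for windows of `ε log n` digits and numbers of size `n ^ (1 + ε)`, too.

For real numbers this is a theorem of Erickson (1999), who proves a bound `n ^ 2 / c` for 3-linear
decision trees by an adversary argument with infinitesimals; the lists of his proof have
exponentially large integers. Our lists are as follows. The numbers have labels in three copies
of the grid `[S]^d`; a point `u` of the first two copies is encoded by the number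
`∑ u_e K^e` and `- ∑ u_e K^e` is used for the third copy, plus a digit for the class, so that small
linear combinations vanish only if they are combinations of classes with the same total weight and
the same total position. The low digits of the number with the label `u` are `|u - c|^2` with the
centres `c = i₀, j₀, i₀ + j₀` for the three classes (a list with the solution `i₀, j₀, i₀ + j₀`), or
`|u|^2`, plus `1` for the third class (no solution). The combinations with class weights `0` do not
depend on the centres, and those with class weights `κ ≠ 0` are combinations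
`κ (x_i + x_j + x_k)`, whose sign is that of `κ` unless the three labels are `i₀, j₀, i₀ + j₀`.
-/

set_option autoImplicit false

namespace Pool.Agent.Results.MP_8f87b2_lc.LinearDecisionTrees

open Finset Pool.Agent.Q128.LDT

/-- The constant. -/
def const (d : ℕ) : ℕ := 3 * 144 ^ d * (d + 6)

open Classical in
/-- The probability of the event `E` for a finite probability space with the weights `w`. -/
noncomputable def pr {Ω : Type} [Fintype Ω] (w : Ω → ℝ) (E : Ω → Prop) : ℝ :=
  ∑ ω, if E ω then w ω else 0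

theorem params (d : ℕ) (hd : 1 ≤ d) (n : ℕ) (hn : const d ≤ n) :
    ∃ s S : ℕ, 1 ≤ s ∧ 2 * s ≤ S ∧ 3 * (2 * s) ^ d ≤ n ∧ n ≤ 3 * (S + 1) ^ d ∧
      1 ≤ S ∧ S ^ d ≤ 2 ^ d * n ∧ n ≤ 12 ^ d * s ^ d := by
  obtain ⟨s, hs⟩ : ∃ s, s = Nat.findGreatest (fun s => (6 * s) ^ d ≤ n) n := ⟨_, rfl⟩
  have h6 : 6 ^ d ≤ n := by
    refine le_trans ?_ hn
    unfold const
    have h1 : 6 ^ d ≤ 144 ^ d := Nat.pow_le_pow_left (by norm_num) d
    nlinarith [Nat.zero_le (144 ^ d * d)]
  have hnpos : 1 ≤ n := le_trans (Nat.one_le_pow _ _ (by norm_num)) h6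
  have h1 : 1 ≤ s := by
    rw [hs]
    exact Nat.le_findGreatest hnpos (by simpa using h6)
  have h2 : (6 * s) ^ d ≤ n := by
    rw [hs]
    exact Nat.findGreatest_spec (P := fun s => (6 * s) ^ d ≤ n) (m := 1) hnpos (by simpa using h6)
  have h3 : n < (6 * (s + 1)) ^ d := by
    by_contra hcon
    push Not at hcon
    have h4 : s + 1 ≤ n := by
      have h5 : 6 * (s + 1) ≤ (6 * (s + 1)) ^ d := Nat.le_self_pow (by omega) _
      omega
    have h5 := Nat.le_findGreatest (P := fun s => (6 * s) ^ d ≤ n) h4 hcon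
    omega
  refine ⟨s, 6 * (s + 1), h1, by omega, ?_, ?_, by omega, ?_, ?_⟩
  · refine le_trans ?_ h2
    calc 3 * (2 * s) ^ d ≤ 3 ^ d * (2 * s) ^ d := by
          refine Nat.mul_le_mul_right _ ?_
          exact Nat.le_self_pow (by omega) 3
      _ = (6 * s) ^ d := by rw [← mul_pow]; congr 1; ring
  · refine h3.le.trans ?_
    have h4 : (6 * (s + 1)) ^ d ≤ (6 * (s + 1) + 1) ^ d := Nat.pow_le_pow_left (by omega) d
    omega
  · calc (6 * (s + 1)) ^ d ≤ (2 * (6 * s)) ^ d := Nat.pow_le_pow_left (by omega) d
      _ = 2 ^ d * (6 * s) ^ d := mul_pow _ _ _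
      _ ≤ 2 ^ d * n := Nat.mul_le_mul_left _ h2
  · calc n ≤ (6 * (s + 1)) ^ d := h3.le
      _ ≤ (12 * s) ^ d := Nat.pow_le_pow_left (by omega) d
      _ = 12 ^ d * s ^ d := mul_pow _ _ _

/-- Let `d ≥ 1`, `C = 3 * 144 ^ d * (d + 6)`, `n ≥ C`, and let `L, Q ≥ 1`, `H`, `R` be integers with
`(C L Q)^d n^2 ≤ H^d` and `C L^(d+1) n H ≤ R`. There is a list `x` of `n` distinct integers of
absolute value at most `R` without solution and with the following properties.

(1) For fewer than `n^2 / C` tests with coefficients at most `L` and constants smaller than `Q` there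
is a list `y` of distinct integers of absolute value at most `R` with a solution, such that all
tests have the same signs for `x` and `y`, and `x_l / H = y_l / H` and `x_l mod Q = y_l mod Q`
for all `l`.

(2) For every randomized algorithm which is given the numbers `x_l / H` and `x_l mod Q` and uses
such tests, and whose answer is correct with probability at least `2 / 3` for every list, the
expected number of tests for `x` is at least `n^2 / C`. -/
theorem result (d : ℕ) (hd : 1 ≤ d) (n : ℕ) (hn : const d ≤ n) (L Q H R : ℕ) (hL : 1 ≤ L)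
    (hQ : 1 ≤ Q) (hH : (const d * L * Q) ^ d * n ^ 2 ≤ H ^ d)
    (hR : const d * L ^ (d + 1) * n * H ≤ R) :
    ∃ x : Fin n → ℤ, Inst R x ∧ ¬ Yes x ∧
      (∀ (m : ℕ) (τ : Fin m → Tst n), const d * m < n ^ 2 → (∀ r, (τ r).Small L Q) →
        ∃ y : Fin n → ℤ, Inst R y ∧ Yes y ∧ hi H y = hi H x ∧ lo Q y = lo Q x ∧
          ∀ r, SameSign ((τ r).val y) ((τ r).val x)) ∧
      (∀ (Ω : Type) [Fintype Ω] (w : Ω → ℝ) (A : Ω → (Fin n → ℤ) → (Fin n → ℤ) → DT n),
        (∀ ω, 0 ≤ w ω) → ∑ ω, w ω = 1 → (∀ ω p q, (A ω p q).Small L Q) →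
        (∀ y : Fin n → ℤ, Inst R y →
          2 / 3 ≤ pr w fun ω => (A ω (hi H y) (lo Q y)).run y = true ↔ Yes y) →
        (n : ℝ) ^ 2 / const d ≤ ∑ ω, w ω * ((A ω (hi H x) (lo Q x)).cost x : ℝ)) := by
  classical
  obtain ⟨s, S, hs, hsS, h1, h2, hS, h3, h4⟩ := params d hd n hn
  obtain ⟨lab, l1, l2, l3⟩ := exists_lab hs hsS h1 h2
  have hC1 : 4 * (3 * d + 4) ≤ const d := by
    unfold const
    have : 144 ≤ 144 ^ d := Nat.le_self_pow (by omega) _
    nlinarith
  have hC2 : (d + 5) * 8 ^ d + 1 ≤ const d := by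
    unfold const
    have e1 : 8 ^ d ≤ 144 ^ d := Nat.pow_le_pow_left (by norm_num) d
    have e2 : 1 ≤ 8 ^ d := Nat.one_le_pow _ _ (by norm_num)
    nlinarith [Nat.mul_le_mul_right (d + 6) e1]
  have hC3 : 3 * 144 ^ d ≤ const d := by
    unfold const
    nlinarith [Nat.zero_le (144 ^ d)]
  have hCpos : 0 < const d := by omega
  have hS2 : 1 ≤ S ^ 2 := Nat.one_le_pow _ _ hS
  have hH' : (3 * L * (d * S ^ 2 + 1) + 1) * Q ≤ H := by
    refine (Nat.pow_le_pow_iff_left (by omega : d ≠ 0)).mp ?_
    refine le_trans ?_ hH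
    have e1 : 3 * L * (d * S ^ 2 + 1) + 1 ≤ (3 * d + 4) * L * S ^ 2 := by
      have e2 : 1 ≤ L * S ^ 2 := Nat.one_le_iff_ne_zero.mpr (by positivity)
      nlinarith
    calc ((3 * L * (d * S ^ 2 + 1) + 1) * Q) ^ d
        ≤ ((3 * d + 4) * L * S ^ 2 * Q) ^ d := Nat.pow_le_pow_left (Nat.mul_le_mul_right _ e1) d
      _ = ((3 * d + 4) * L * Q) ^ d * (S ^ d) ^ 2 := by
          rw [← pow_mul, mul_comm d 2, pow_mul, ← mul_pow]
          congr 1
          ring
      _ ≤ ((3 * d + 4) * L * Q) ^ d * (2 ^ d * n) ^ 2 :=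
          Nat.mul_le_mul_left _ (Nat.pow_le_pow_left h3 2)
      _ = (4 * (3 * d + 4) * L * Q) ^ d * n ^ 2 := by
          have : (4 : ℕ) ^ d = (2 ^ d) ^ 2 := by
            rw [← pow_mul, mul_comm d 2, pow_mul]
            norm_num
          rw [mul_assoc 4, mul_assoc 4, mul_pow 4, this]
          ring
      _ ≤ (const d * L * Q) ^ d * n ^ 2 := by
          refine Nat.mul_le_mul_right _ (Nat.pow_le_pow_left ?_ d)
          exact Nat.mul_le_mul_right _ (Nat.mul_le_mul_right _ hC1)
  have hR' : H * ((d + 3 * L + 2) * (3 * L * S + 1) ^ d + 1) ≤ R := by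
    refine le_trans ?_ hR
    have hLS : 1 ≤ L * S := Nat.one_le_iff_ne_zero.mpr (by positivity)
    have e1 : (3 * L * S + 1) ^ d ≤ 8 ^ d * L ^ d * n := by
      calc (3 * L * S + 1) ^ d ≤ (4 * L * S) ^ d := Nat.pow_le_pow_left (by nlinarith) d
        _ = 4 ^ d * L ^ d * S ^ d := by rw [mul_pow, mul_pow]
        _ ≤ 4 ^ d * L ^ d * (2 ^ d * n) := Nat.mul_le_mul_left _ h3
        _ = 8 ^ d * L ^ d * n := by
          have : (8 : ℕ) ^ d = 4 ^ d * 2 ^ d := by
            rw [← mul_pow]
            norm_num
          rw [this]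
          ring
    have e2 : d + 3 * L + 2 ≤ (d + 5) * L := by nlinarith
    have e3 : 1 ≤ L ^ (d + 1) * n := Nat.one_le_iff_ne_zero.mpr (by
      have : 0 < n := lt_of_lt_of_le hCpos hn
      positivity)
    calc H * ((d + 3 * L + 2) * (3 * L * S + 1) ^ d + 1)
        ≤ H * (((d + 5) * L) * (8 ^ d * L ^ d * n) + L ^ (d + 1) * n) :=
          Nat.mul_le_mul_left _ (add_le_add (Nat.mul_le_mul e2 e1) e3)
      _ = ((d + 5) * 8 ^ d + 1) * L ^ (d + 1) * n * H := by ring
      _ ≤ const d * L ^ (d + 1) * n * H :=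
          Nat.mul_le_mul_right _ (Nat.mul_le_mul_right _ (Nat.mul_le_mul_right _ hC2))
  let W : Data n d s S L Q H R := ⟨lab, l1, l2, l3, hL, hQ, hsS, hH', hR'⟩
  have h5 : n ^ 2 ≤ 144 ^ d * (s ^ d) ^ 2 := by
    calc n ^ 2 ≤ (12 ^ d * s ^ d) ^ 2 := Nat.pow_le_pow_left h4 2
      _ = 144 ^ d * (s ^ d) ^ 2 := by
        have : (144 : ℕ) ^ d = (12 ^ d) ^ 2 := by
          rw [← pow_mul, mul_comm d 2, pow_mul]
          norm_num
        rw [this]
        ring
  refine ⟨W.x 0 1, W.inst zero_le_one le_rfl zero_bd, W.no, ?_, ?_⟩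
  · intro m τ hm hτ
    refine W.cert ?_ τ hτ
    by_contra hcon
    push Not at hcon
    have h6 : const d * (s ^ d) ^ 2 ≤ const d * m := Nat.mul_le_mul_left _ hcon
    have h7 : 144 ^ d * (s ^ d) ^ 2 ≤ const d * (s ^ d) ^ 2 :=
      Nat.mul_le_mul_right _ (by omega)
    omega
  · intro Ω _ w A hw hw1 hA hc
    have h6 := W.alg w hw hw1 A hA (fun y hy => by
      refine (hc y hy).trans (le_of_eq ?_)
      unfold pr
      rw [Finset.sum_filter]
      refine Finset.sum_congr rfl fun ω _ => ?_
      by_cases h : ((A ω (hi H y) (lo Q y)).run y = true ↔ Yes y)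
      · rw [if_pos h, if_pos h]
      · rw [if_neg h, if_neg h])
    refine le_trans ?_ h6
    rw [div_le_div_iff₀ (by exact_mod_cast hCpos) (by norm_num)]
    have h7 : n ^ 2 * 3 ≤ (s ^ d) ^ 2 * const d := by
      calc n ^ 2 * 3 ≤ 144 ^ d * (s ^ d) ^ 2 * 3 := Nat.mul_le_mul_right _ h5
        _ = (s ^ d) ^ 2 * (3 * 144 ^ d) := by ring
        _ ≤ (s ^ d) ^ 2 * const d := Nat.mul_le_mul_left _ hC3
    exact_mod_cast h7

end Pool.Agent.Results.MP_8f87b2_lc.LinearDecisionTrees
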