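import Mathlib
import Pool.Agent.Q225.LS.Good

/-!
# 3SUM: few qubits

The input consists of `2 n` distinct integers of absolute value at most `(2 n) ^ 3`; the question is
whether three of them have the sum zero. The items of the input are the first `n` numbers and the
list of the other `n` numbers. So everything may be known about the list at any time, and only the
reads of the first `n` numbers are counted.

The memory of a machine (`Machine`, `Pool.Agent.Q225.LS.Defs`) is a vector with the coordinates `S`
over a field. In each step one item is read, and the vector is multiplied by a matrix which is an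
arbitrary function of this item; the order of the reads is fixed in advance (but it may be random, since
we consider random machines). At the end a linear function of the vector is computed; the machine
accepts if its value is positive (`positive`, over the real numbers), or if it is not zero
(`nonzero`, over any field). So there are no restrictions on the numbers in the memory and on the
computation, and the gap between acceptance and rejection may be arbitrarily small. Such machines
contain all oblivious algorithms with `log₂ |S|` bits of memory, deterministic, randomised with
unbounded error, nondeterministic or counting modulo a prime. In a quantum machine (`Quantum`) the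
memory is a vector in `ℂ ^ S` (`k` qubits: `|S| = 2 ^ k`), the matrices are arbitrary complex matrices
(so postselection is allowed), and the machine accepts if the last state is more than half in the
accepting basis states.

Result: random machines with error probability at most `1 / 3` and at most `n ^ a` reads of the first
`n` numbers need `n ^ 2 / (386 a) ≤ |S| ^ 2 (E [reads] + n)`, for `n ≥ 1000` and `a ≥ 1`, and quantum
machines need `n ^ 2 / (386 a) ≤ 16 |S| ^ 4 (E [reads] + n)`. So 3SUM needs `n ^ (2 - o (1))` reads
with `o (log n)` qubits.

Proof. Each of the first `n` numbers can ask for about `n log₂ n / 7` bits of the list. If the other items are fixed and `x_i` is read `r` times, then the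
value of the machine is a polynomial of degree `r + 1` in `(r + 1) |S| ^ 2` parameters, the entries of
the matrices of the steps between these reads. So `x_i` has at most `N ^ ((r + 1) |S| ^ 2)` functions,
`log₂ N = O (a log₂ n)`, by the theorems of Warren (signs) and of Rónyai, Babai and Ganapathy (zero
patterns). The state of a quantum machine is replaced by its tensor square over the real numbers.
-/

set_option autoImplicit false

namespace Pool.Agent.Results.MP_8f87b2_lc.VectorMemory

open Pool.Agent.TH697.Form (IsProb)
open Pool.Agent.TH697.Row (ApproximatesOn)
open Pool.Agent.TH697.Form.ThreeSum (Item Valid)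
open Pool.Agent.TH457.Ary.ZeroSum (zeroSum)
open Pool.Agent.Q225.SP (somes card_somes)
open Pool.Agent.Q225.LS

theorem result : ∀ n a : ℕ, 1000 ≤ n → 1 ≤ a →
    ∀ (S : Type) [Fintype S] [DecidableEq S] (Ω : Type) [Fintype Ω] (μ : Ω → ℝ), IsProb μ →
      (∀ C : Ω → Machine (Option (Fin n)) (Item n n) S ℝ,
        (∀ ω, (C ω).reads (somes n) ≤ n ^ a) →
        ApproximatesOn μ (fun ω => (C ω).positive) (Valid n n) (zeroSum n) →
        (n : ℝ) ^ 2 / (386 * a) ≤
          (Fintype.card S : ℝ) ^ 2 * (mean μ (fun ω => (C ω).reads (somes n)) + n)) ∧
      (∀ (F : Type) [Field F] (C : Ω → Machine (Option (Fin n)) (Item n n) S F),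
        (∀ ω, (C ω).reads (somes n) ≤ n ^ a) →
        ApproximatesOn μ (fun ω => (C ω).nonzero) (Valid n n) (zeroSum n) →
        (n : ℝ) ^ 2 / (386 * a) ≤
          (Fintype.card S : ℝ) ^ 2 * (mean μ (fun ω => (C ω).reads (somes n)) + n)) ∧
      (∀ C : Ω → Quantum (Option (Fin n)) (Item n n) S,
        (∀ ω, (C ω).reads (somes n) ≤ n ^ a) →
        ApproximatesOn μ (fun ω => (C ω).eval) (Valid n n) (zeroSum n) →
        (n : ℝ) ^ 2 / (386 * a) ≤
          16 * (Fintype.card S : ℝ) ^ 4 * (mean μ (fun ω => (C ω).reads (somes n)) + n)) := by
  intro n a hn ha S _ _ Ω _ μ hμ
  obtain ⟨b, hb, hg8, hb2⟩ := Pool.Agent.TH457.Ary.ThreeSum.params (n := n) (by omega)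
  have hT := Pool.Agent.TH457.Ary.ThreeSum.card_T (n := n) (by omega) hb2
  have hg := good_zeroSum hn ha hg8 hT
  have hk := asks_somes (D := Item n n) (f := zeroSum n)
    (Pool.Agent.Y638.RF.ZeroSum.asks hb (by omega))
  refine ⟨fun C hL hF => ?_, fun F _ C hL hF => ?_, fun C hL hF => ?_⟩
  · have h := positive_bound hg hk μ hμ C hL hF
    rwa [card_somes] at h
  · have h := nonzero_bound hg hk μ hμ C hL hF
    rwa [card_somes] at h
  · have h := quantum_bound hg hk μ hμ C hL hF
    rwa [card_somes] at h

end Pool.Agent.Results.MP_8f87b2_lc.VectorMemory
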